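import Pool.Agent.Lib.MP_55cb2c_co.Defs
import Pool.Agent.Lib.MP_55cb2c_co.Shape
import Pool.Agent.Lib.MP_55cb2c_co.Thm1

open Pool.Agent.Lib.MP_55cb2c_co

/-- For the Reuleaux triangle, read either as the solid region or as its boundary curve, the
rendezvous value is strictly smaller than the maximal average distance. -/
theorem Pool.Agent.Results.MP_55cb2c_co.Disproof.result
    (A B C : EuclideanSpace ℝ (Fin 2)) (hAB : dist A B = 1) (hBC : dist B C = 1)
    (hAC : dist A C = 1) (T : Set (EuclideanSpace ℝ (Fin 2)))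
    (hT : T = Metric.closedBall A 1 ∩ Metric.closedBall B 1 ∩ Metric.closedBall C 1)
    (E : Set (EuclideanSpace ℝ (Fin 2))) (hE : E = T ∨ E = frontier T) :
    rdv E < avg E := by
  obtain ⟨f, hf, hTT⟩ := exists_sim one_pos hAB hBC hAC
  rw [← hTT] at hT
  rcases hE with h | h
  · rw [h, hT, rdv_image zero_le_one hf, avg_image zero_le_one hf]
    linarith [rdv_TT_lt, le_avg_TT]
  · rw [h, hT, ← f.image_frontier, frontier_TT, rdv_image zero_le_one hf,
      avg_image zero_le_one hf]
    linarith [rdv_lt_avg_Gam]
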